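import Mathlib
import Pool.Agent.Lib.MP_f04ccf_co.Large.Main

/-!
# MP_f04ccf_co: all sufficiently large `r`

For every `r ≥ 10 ^ 430`, every colouring of the edges of the complete graph on `r ^ 2 + 1` vertices
with `r` colours has `r + 1` vertices that span no edge of some colour.
-/

namespace Pool.Agent.Results.MP_f04ccf_co.AllLargeR

/-- The Erdős–Gyárfás statement holds for every `r ≥ 10 ^ 430`. -/
theorem result (r : ℕ) (hr : 10 ^ 430 ≤ r) (c : Fin (r ^ 2 + 1) → Fin (r ^ 2 + 1) → Fin r)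
    (hc : ∀ x y, c x y = c y x) :
    ∃ S : Finset (Fin (r ^ 2 + 1)), S.card = r + 1 ∧
      ∃ k : Fin r, ∀ x ∈ S, ∀ y ∈ S, x ≠ y → c x y ≠ k :=
  Pool.Agent.EG.main_large r hr c hc

end Pool.Agent.Results.MP_f04ccf_co.AllLargeR
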