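import Pool.Agent.Lib.MP_f04ccf_co.Top
import Pool.Agent.Lib.MP_f04ccf_co.M.R7d
import Pool.Agent.Lib.MP_f04ccf_co.M.R8
import Pool.Agent.Lib.MP_f04ccf_co.M.R9
import Pool.Agent.Lib.MP_f04ccf_co.M.FinLo
import Pool.Agent.Lib.MP_f04ccf_co.M.FinHi

/-!
# MP_f04ccf_co: the cases `5 ≤ r ≤ 20`

For every `r` with `5 ≤ r ≤ 20`, every colouring of the edges of `K_(r ^ 2 + 1)` with `r` colours has
`r + 1` vertices that span no edge of some colour.
-/

set_option autoImplicit false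

namespace Pool.Agent.Results.MP_f04ccf_co.FiveToTwenty

open Pool.Agent.Lib.MP_f04ccf_co

/-- The conjecture holds for `5 ≤ r ≤ 20`. -/
theorem result (r : ℕ) (h5 : 5 ≤ r) (h20 : r ≤ 20) (c : Fin (r ^ 2 + 1) → Fin (r ^ 2 + 1) → Fin r)
    (hc : ∀ x y, c x y = c y x) :
    ∃ S : Finset (Fin (r ^ 2 + 1)), S.card = r + 1 ∧
      ∃ k : Fin r, ∀ x ∈ S, ∀ y ∈ S, x ≠ y → c x y ≠ k := by
  have h : r = 5 ∨ r = 6 ∨ r = 7 ∨ r = 8 ∨ r = 9 ∨ (10 ≤ r ∧ r ≤ 16) ∨ 17 ≤ r := by omega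
  rcases h with h | h | h | h | h | h | h
  · exact fiveSix r (Or.inl h) (r ^ 2 + 1) le_rfl c hc
  · exact fiveSix r (Or.inr h) (r ^ 2 + 1) le_rfl c hc
  · subst h
    exact good_seven c hc
  · subst h
    exact good_eight c hc
  · subst h
    exact good_nine c hc
  · exact good_lo h.1 h.2 c hc
  · exact good_hi h h20 c hc

end Pool.Agent.Results.MP_f04ccf_co.FiveToTwenty
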