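import Mathlib
import Pool.Agent.Lib.MP_f04ccf_co.Colour

/-!
# MP_f04ccf_co: a bound for every `r`

For every `r ≥ 2` and `N ≥ r ^ 2 + ⌊r / 2⌋ + 1`, every colouring of the edges of `K_N` with `r`
colours has `r + 1` vertices that span no edge of some colour.
-/

namespace Pool.Agent.Results.MP_f04ccf_co.HalfExcess

/-- With `⌊r / 2⌋` more vertices than conjectured, the statement holds for every `r ≥ 2`. -/
theorem result (r N : ℕ) (hr : 2 ≤ r) (hN : r ^ 2 + r / 2 + 1 ≤ N) (c : Fin N → Fin N → Fin r)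
    (hc : ∀ x y, c x y = c y x) :
    ∃ S : Finset (Fin N), S.card = r + 1 ∧
      ∃ k : Fin r, ∀ x ∈ S, ∀ y ∈ S, x ≠ y → c x y ≠ k :=
  Pool.Agent.Lib.MP_f04ccf_co.general r N hr hN c hc

end Pool.Agent.Results.MP_f04ccf_co.HalfExcess
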